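import Mathlib
import Pool.Agent.H744R2.KZ.Props

/-! # Task A_map (helper1): amplifications of *-homomorphisms are contractive -/

open scoped ComplexOrder InnerProductSpace ComplexConjugate Topology
open Finset Filter

namespace H744R2.KZ

open H759R2.Kad

universe u

theorem prove_A_map : A_map.{u} := by
  intro A B _ _ _ _ _ _ p n X
  have h := NonUnitalStarAlgHom.norm_apply_le
    (CStarMatrix.mapₙₐ (n := Fin n) (p : A →⋆ₙₐ[ℂ] B)) X
  exact h

end H744R2.KZ
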